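import Mathlib

/-! PROJECT PF, PF2-CHART: local inverse functions of `t ↦ 1 / t ^ N`. -/

set_option autoImplicit false

open Filter Topology Metric

namespace Pool.Agent.H918.PF

/-- PF2-CHART: local inverse functions of `t ↦ 1 / t ^ N`. -/
theorem exists_chart {N : ℕ} (hN : 0 < N) {κ : ℝ} (hκ : 0 < κ) :
    ∃ (U : Set ℂ) (s : ℂ → ℂ) (K : ℝ), IsOpen U ∧ U.Nonempty ∧ 0 ≤ K ∧ DifferentiableOn ℂ s U ∧
      ∀ z ∈ U, s z ∈ ball (0 : ℂ) κ \ {0} ∧ (s z ^ N)⁻¹ = z ∧ ‖deriv s z‖ ≤ K := by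
  have hNr : (0 : ℝ) < N := Nat.cast_pos.2 hN
  have hNc : (N : ℂ) ≠ 0 := Nat.cast_ne_zero.2 hN.ne'
  have hk : 0 < (κ ^ N)⁻¹ := inv_pos.2 (pow_pos hκ N)
  set s : ℂ → ℂ := fun z => Complex.exp (-(Complex.log z) / N) with hs
  have hder : ∀ z ∈ Complex.slitPlane, HasDerivAt s (s z * (-(z⁻¹) / N)) z := by
    intro z hz
    exact (((Complex.hasDerivAt_log hz).neg).div_const (N : ℂ)).cexp
  have hnorm : ∀ z : ℂ, (κ ^ N)⁻¹ < ‖z‖ → ‖s z‖ < κ := by
    intro z hz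
    have h0 : 0 < ‖z‖ := hk.trans hz
    have h1 : (-(Complex.log z) / N).re = -Real.log ‖z‖ / N := by
      have h2 : (-(Complex.log z) / (N : ℂ)) = -(Complex.log z) / ((N : ℝ) : ℂ) := by
        rw [Complex.ofReal_natCast]
      rw [h2, Complex.div_ofReal_re, Complex.neg_re, Complex.log_re]
    rw [hs]
    simp only
    rw [Complex.norm_exp, h1, ← Real.lt_log_iff_exp_lt hκ, div_lt_iff₀ hNr]
    have h3 : Real.log ((κ ^ N)⁻¹) < Real.log ‖z‖ := Real.log_lt_log hk hz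
    rw [Real.log_inv, Real.log_pow] at h3
    linarith
  refine ⟨Complex.slitPlane ∩ {z | (κ ^ N)⁻¹ < ‖z‖}, s, κ * (κ ^ N / N), ?_, ?_, ?_, ?_, ?_⟩
  · exact Complex.isOpen_slitPlane.inter (isOpen_lt continuous_const continuous_norm)
  · refine ⟨(((κ ^ N)⁻¹ + 1 : ℝ) : ℂ), ?_, ?_⟩
    · rw [Complex.ofReal_mem_slitPlane]
      positivity
    · simp only [Set.mem_ofPred_eq, Complex.norm_real, Real.norm_eq_abs]
      refine lt_of_lt_of_le ?_ (le_abs_self _)
      linarith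
  · positivity
  · exact fun z hz => (hder z hz.1).differentiableAt.differentiableWithinAt
  · rintro z ⟨hz, hz1⟩
    have hz2 : (κ ^ N)⁻¹ < ‖z‖ := hz1
    have hz0 : z ≠ 0 := Complex.slitPlane_ne_zero hz
    refine ⟨⟨?_, ?_⟩, ?_, ?_⟩
    · rw [mem_ball_zero_iff]
      exact hnorm z hz2
    · rw [Set.mem_singleton_iff]
      exact Complex.exp_ne_zero _
    · rw [hs]
      simp only
      rw [← Complex.exp_nat_mul, mul_div_cancel₀ _ hNc, Complex.exp_neg, inv_inv,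
        Complex.exp_log hz0]
    · rw [(hder z hz).deriv, norm_mul, norm_div, norm_neg, norm_inv, Complex.norm_natCast]
      have h4 : ‖z‖⁻¹ ≤ κ ^ N := by
        rw [inv_le_comm₀ (hk.trans hz2) (pow_pos hκ N)]
        exact hz2.le
      exact mul_le_mul (hnorm z hz2).le (div_le_div_of_nonneg_right h4 hNr.le) (by positivity)
        hκ.le

end Pool.Agent.H918.PF
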